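import Mathlib
import Pool.Agent.H56.MinorDefs
import Pool.Agent.H56.Final3

set_option autoImplicit false

namespace Pool.Agent.Results.MP_cf34f5_co.ThresholdOrder

open Pool.Agent.H56.Minor

/-- The order of the minor-forcing threshold of `H`, the graph obtained from a `d`-regular graph
`H₀` on `t` vertices by adding `s` dominant vertices: for every `H₀` it is
`f(H₀) + √(s t log s)`, it always lies between `√(log (2 + d / log t)) t + √(s t log s)` and
`√(log d) t + √(s t log s)` up to constants, and both bounds are attained. -/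
theorem result :
    ∃ c C : ℝ, 0 < c ∧ 0 < C ∧ ∃ d₀ : ℕ, ∀ d s t : ℕ, d₀ ≤ d → d ≤ s → s ≤ t → 2 * d + 2 ≤ t →
      (∀ H₀ : SimpleGraph (Fin t), (∀ v, (H₀.neighborSet v).ncard = d) →
        (c * (threshold H₀ + Real.sqrt (s * t * Real.log s)) ≤ threshold (addDominant H₀ s) ∧
          threshold (addDominant H₀ s) ≤ C * (threshold H₀ + Real.sqrt (s * t * Real.log s))) ∧
        (c * (Real.sqrt (Real.log (2 + d / Real.log t)) * t + Real.sqrt (s * t * Real.log s))
            ≤ threshold (addDominant H₀ s) ∧
          threshold (addDominant H₀ s)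
            ≤ C * (Real.sqrt (Real.log d) * t + Real.sqrt (s * t * Real.log s)))) ∧
      (Even (t * d) →
        (∃ H₀ : SimpleGraph (Fin t), (∀ v, (H₀.neighborSet v).ncard = d) ∧
          c * (Real.sqrt (Real.log d) * t + Real.sqrt (s * t * Real.log s))
            ≤ threshold (addDominant H₀ s)) ∧
        (∃ H₀ : SimpleGraph (Fin t), (∀ v, (H₀.neighborSet v).ncard = d) ∧
          threshold (addDominant H₀ s)
            ≤ C * (Real.sqrt (Real.log (2 + d / Real.log t)) * t
                + Real.sqrt (s * t * Real.log s)))) :=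
  main3

end Pool.Agent.Results.MP_cf34f5_co.ThresholdOrder
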